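import Pool.Agent.V11201.GP.Csp

set_option autoImplicit false

/-!
# Khot's d-to-1 conjecture and reductions of constant depth or of small sensitivity

Circuits (`Circuit`, `nodeVal`, `nodeDepth`) are defined in `Pool/Agent/H568R2/Defs.lean`: inputs
`Fin N`, NOT gates and AND and OR gates of unbounded fan-in.

An NP-hardness proof for the gap problem of the conjecture (value one against value less than `ε`)
gives in particular a reduction from parity. We consider reductions whose output, a d-to-1 Label
Cover instance, is given by presence bits: for every position `e` (a possible edge: a left vertex, a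
right vertex, a constraint map; all finite lists of positions are allowed, so also parallel edges) the
bit `E x e` tells whether the instance of the input `x` has this edge. If an instance is written as
a list of edges in binary, the presence bits are conjunctions of bits of the output.

1. Sensitivity. In every reduction from the parity of `N` bits (of any complexity) some presence bit
   has sensitivity at least `c N` at some input at which its edge is present, `c = (1 - ε) / (1 + ε)`
   (in general `c = (1 - γ - δ) / (1 + |γ - δ|)` for values at least `1 - γ` and at most `δ`). So
   presence bits cannot be decision trees, or have certificates, of size less than `c N`.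
2. Constant depth. A reduction from parity computed by circuits of depth `h` needs at least
   `2 ^ ((c N) ^ (1 / (h + 1)) / 100)` gates. So neither the gap problem of the conjecture, nor its
   relaxations with imperfect completeness and with any gap at all, are hard for NP, or even for
   parity, under (nonuniform) `AC0` many-one reductions, whatever `d` and `R` are. (Without a gap,
   for suitable label sets, the problem is hard under such reductions.)

Idea of the proof. A yes instance and a no instance have at most a fraction `(1 - c) / 2` of the sum
of their numbers of edges in common. Hence, for every variable, the flip of this variable destroys on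
average a fraction `c` of the edges; count the triples of an input, a variable and an edge which
disappears. For (2) this is applied after a random restriction, under which all presence bits become
decision trees of small depth.
-/

namespace Pool.Agent.Results.MP_62e2f2_lc.ConstantDepthReductions

open Finset DomAC0
open scoped Classical

/-- A family of positions of edges for d-to-1 Label Cover instances with left vertices `V`, left
labels `Fin R`, right vertices `W` and right labels `Fin (d * R)`: an edge at the position `e` joins
`left e` and `right e`, and its constraint is `map e`, whose fibres have at most `d` elements. -/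
structure Positions (V W : Type) (d R : ℕ) (P : Type) where
  left : P → V
  right : P → W
  map : P → Fin (d * R) → Fin R
  fibre : ∀ e b, (univ.filter fun a => map e a = b).card ≤ d

/-- the number of edges with the property `E` -/
noncomputable def count {P : Type} [Fintype P] (E : P → Prop) : ℕ := (univ.filter fun e => E e).card

/-- the labelling `A`, `B` satisfies the constraint at the position `e` -/
def Satisfies {V W : Type} {d R : ℕ} {P : Type} (L : Positions V W d R P) (A : V → Fin R)
    (B : W → Fin (d * R)) (e : P) : Prop := L.map e (B (L.right e)) = A (L.left e)

/-- The instance with the edges at the positions `e` with `E e` has value at least `t`. -/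
def ValueAtLeast {V W : Type} {d R : ℕ} {P : Type} [Fintype P] (L : Positions V W d R P)
    (E : P → Prop) (t : ℝ) : Prop :=
  ∃ A B, t * (count E : ℝ) ≤ (count fun e => E e ∧ Satisfies L A B e : ℕ)

/-- The instance with the edges at the positions `e` with `E e` has value at most `t`. -/
def ValueAtMost {V W : Type} {d R : ℕ} {P : Type} [Fintype P] (L : Positions V W d R P)
    (E : P → Prop) (t : ℝ) : Prop :=
  ∀ A B, ((count fun e => E e ∧ Satisfies L A B e : ℕ) : ℝ) ≤ t * count E

/-- The instances `E x`, `x ∈ {0,1}^N`, all of which have an edge, are a reduction from parity: the
value is at least `1 - γ` if `x` has an even number of ones, and at most `δ` otherwise. -/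
structure FromParity {V W : Type} {d R : ℕ} {P : Type} [Fintype P] (L : Positions V W d R P) {N : ℕ}
    (E : (Fin N → Bool) → P → Prop) (γ δ : ℝ) : Prop where
  nonempty : ∀ x, ∃ e, E x e
  even : ∀ x, Even (univ.filter fun i => x i = true).card → ValueAtLeast L (E x) (1 - γ)
  odd : ∀ x, Odd (univ.filter fun i => x i = true).card → ValueAtMost L (E x) δ

/-- Let `γ + δ ≤ 1` and `c = (1 - γ - δ) / (1 + |γ - δ|)`.

1. Let `x ↦ E x` be a reduction from the parity of `N` bits to d-to-1 Label Cover, with value at
least `1 - γ` for even and at most `δ` for odd inputs. If for every edge `e` of every `E x` there are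
at most `s` variables whose flip makes this edge disappear, then `c N ≤ s`.

2. For every `h` there is `X₀` such that, if such a reduction is computed by a circuit `C` (the
presence of the edge `e` by the node `out e`, of depth at most `h`) and `c N ≥ X₀`, then `C` has at
least `2 ^ ((c N) ^ (1 / (h + 1)) / 100)` gates. -/
theorem result :
    (∀ (N s d R : ℕ) (V W P : Type) [Fintype P] (L : Positions V W d R P)
      (E : (Fin N → Bool) → P → Prop) (γ δ : ℝ), γ + δ ≤ 1 → FromParity L E γ δ →
      (∀ e x, E x e → (univ.filter fun i => ¬ E (Function.update x i (!(x i))) e).card ≤ s) →
      (1 - γ - δ) / (1 + |γ - δ|) * N ≤ s) ∧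
    ∀ h : ℕ, ∃ X₀ : ℝ, ∀ (N d R : ℕ) (C : Circuit (Fin N)) (V W P : Type) [Fintype P]
      (L : Positions V W d R P) (out : P → Fin N ⊕ Fin C.size) (γ δ : ℝ), γ + δ ≤ 1 →
      (∀ e, C.nodeDepth (out e) ≤ h) →
      FromParity L (fun x e => C.nodeVal x (out e) = true) γ δ →
      X₀ ≤ (1 - γ - δ) / (1 + |γ - δ|) * N →
      (2 : ℝ) ^ (((1 - γ - δ) / (1 + |γ - δ|) * N) ^ (1 / (h + 1 : ℝ)) / 100) ≤ C.size := by
  refine ⟨?_, ?_⟩
  · intro N s d R V W P _ L E γ δ _ hE hs
    refine Pool.Agent.V11201.GP.csp_sens (α := (V → Fin R) × (W → Fin (d * R)))
      (S := fun a e => Satisfies L a.1 a.2 e) hE.nonempty ?_ ?_ hs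
    · intro x hx
      obtain ⟨A, B, h⟩ := hE.even x hx
      exact ⟨(A, B), h⟩
    · intro x hx a
      exact hE.odd x hx a.1 a.2
  · intro h
    obtain ⟨X₀, hX₀⟩ := Pool.Agent.V11201.GP.csp_ac0 h
    refine ⟨X₀, ?_⟩
    intro N d R C V W P _ L out γ δ hγδ hh hE hX
    refine hX₀ C (α := (V → Fin R) × (W → Fin (d * R))) out
      (fun a e => Satisfies L a.1 a.2 e) γ δ hh hγδ hE.nonempty ?_ ?_ hX
    · intro x hx
      obtain ⟨A, B, h⟩ := hE.even x hx
      exact ⟨(A, B), h⟩
    · intro x hx a
      exact hE.odd x hx a.1 a.2

end Pool.Agent.Results.MP_62e2f2_lc.ConstantDepthReductions
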