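import Pool.Agent.V11163.DG.Main

/-!
# Satisfiable `d`-to-1 Label Cover is hard for read-once tensor networks, even with cancellations

A tree tensor network `Net K V A W` (`Pool/Agent/TH700/PA/Defs.lean`) has leaves that read one
symbol of the alphabet `A` each (with a vector in `K ^ W` for each symbol); an inner node combines
the vectors of its two children by an arbitrary bilinear map. It accepts the input `x` if a linear
form of the vector of the root is not zero. The field `K` and the weights are arbitrary, so there
may be cancellations. The tree is arbitrary; if every right child is a leaf then this is a matrix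
product (a weighted ordered read-once branching program, for any order of the edges). The bond
dimension is `card W`.

The inputs are `d`-to-1 Label Cover instances as in the problem: the label sets have `d R` and `R`
elements, the constraint maps `DToOne d R` are maps between them for which every fiber has at most
(hence exactly) `d` elements; the graph is complete bipartite with `n + n` vertices, and a leaf
reads the constraint map of one edge. There is a constant `Γ` such that for all `d, g ≥ 1`,
`R ≥ Γ d g ^ 8` and `n ≥ Γ g ^ 4` networks with any number of nodes, which read every edge at most
once, accept all instances of value `1` and reject all instances of value at most `1 / g`, have bond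
dimension at least `R ^ (n / (Γ g ^ 2))`. This holds up to the factor `2 ^ μ` also for random networks
which never accept an instance of value at most `1 / g` and accept every instance of value `1` with
probability at least `2 ^ (- μ)` (the deterministic case is the one point set, `μ = 0`). So for every
`d` and every soundness `1 / g` the distinguishing task of the problem is exponentially hard in this
model, as soon as `R ≥ Γ d g ^ 8`; for `d = 1`, where it is easy for other algorithms, as well.

Conversely the number of labelings which satisfy all edges is computed by a linear network over `ℚ`
with `2 n ^ 2 - 1` nodes and bond dimension `(d R) ^ n R ^ n` which reads every edge once.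

**Proof.** As for the starting result on 2-to-1 games (`MP_ec946a_lc`, `TensorNetworks`, where both
label sets have the same size), with general `d` and the two label sets of the problem: the nodes of
the tree give a partition of the edges into `t = 2048 g ^ 2 + 1` parts of rank at most the cube of the
bond dimension and with at most `2 y ^ 2` edges, `y = n / (16 g)`. For each part take a random labeling
and random maps which it satisfies. If a labeling satisfies more than `n ^ 2 / g` edges of the mixture
then it agrees with the labelings of the parts in at least `4 n` pairs (part, vertex), or it
satisfies more than `n ^ 2 / (2 g)` edges by accident; both have probability less than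
`d ^ (- n) R ^ (- 3 n) 2 ^ (- n) / 2`, since the values of a random `d`-to-1 map at two places are nearly
independent (`card_fix`), whatever `d` is. By the replacement lemma among any `t * rank + 1` accepted
instances of value `1` some mixture of different ones is accepted.
-/

set_option autoImplicit false

namespace Pool.Agent.Results.MP_62e2f2_lc.TensorNetworks

open Pool.Agent.TH700.PA (Net)
open Pool.Agent.V11163.DG

/-- (1) The lower bound: the inputs are the instances `x` with a map `DToOne d R` for each of the
`n ^ 2` edges; `ValueOne x` says that all edges can be satisfied, and `ValueLe g x` that every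
labeling satisfies at most `n ^ 2 / g` edges. (2) The number of the labelings which satisfy all edges
is computed by a linear network. -/
theorem result :
    (∃ Γ : ℕ, ∀ d g R n : ℕ, 1 ≤ d → 1 ≤ g → Γ * d * g ^ 8 ≤ R → Γ * g ^ 4 ≤ n →
      ∀ (μ : ℕ) (Ω : Type) [Fintype Ω] [Nonempty Ω] (K W : Ω → Type) [∀ ρ, Field (K ρ)]
        [∀ ρ, Fintype (W ρ)] (T : ∀ ρ, Net (K ρ) (Fin n × Fin n) (DToOne d R) (W ρ))
        (a : ∀ ρ, W ρ → K ρ),
        (∀ ρ e, (T ρ).reads e ≤ 1) →
        (∀ ρ x, ValueLe g x → (T ρ).value (a ρ) x = 0) →
        (∀ x, ValueOne x →
          Nat.card Ω ≤ 2 ^ μ * Nat.card {ρ // (T ρ).value (a ρ) x ≠ 0}) →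
        ∃ ρ, R ^ n ≤ (2 ^ μ * Fintype.card (W ρ)) ^ (Γ * g ^ 2)) ∧
    (∀ d R n : ℕ, 1 ≤ n →
      ∃ (T : Net ℚ (Fin n × Fin n) (DToOne d R) ((Fin n → Fin (d * R)) × (Fin n → Fin R)))
        (a : (Fin n → Fin (d * R)) × (Fin n → Fin R) → ℚ),
        T.Linear ∧ (∀ e, T.reads e = 1) ∧ T.size = 2 * (n * n) - 1 ∧
          ∀ x, T.value a x = (Nat.card {β : (Fin n → Fin (d * R)) × (Fin n → Fin R) //
            ∀ e, Satd x β.1 β.2 e} : ℚ)) :=
  ⟨main_gameq, fun d R _ hn => upper_game d R hn⟩

end Pool.Agent.Results.MP_62e2f2_lc.TensorNetworks
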