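import Pool.Agent.V11201.PT.Neg

set_option autoImplicit false

/-!
# d-to-1 Label Cover: reductions whose output is a list of edges, by threshold functions and formulas

An NP-hardness proof for the gap problem gives in particular a reduction from parity. We consider
reductions whose output, a d-to-1 Label Cover instance, is given by the list of its edges: for every `j < M` the
`j`-th edge is a function of the input `x ∈ {0,1}^N`. (The starting and earlier results
`ConstantDepthReductions` and `UnateReductions` are about presence bits, one for each possible edge.)
The length `M` of the lists is arbitrary, and so is the alphabet.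

1. Average sensitivity. In every reduction from the parity of `N` bits (of any complexity, with lists of
   any length) the average, over the inputs, of the number of variables whose flip changes the `j`-th
   edge of the list is at least `c N` for some `j`, `c = 1 - γ - δ`, if the value is at least `1 - γ` for
   even and at most `δ` for odd inputs.
2. If each edge of the list is determined by `k` unate bits (in each variable nondecreasing or
   nonincreasing, of any complexity; for instance linear threshold functions with arbitrary weights),
   then `k ≥ c √N`.
3. If each edge is determined by `k` polynomial threshold functions of degree `t`, then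
   `2 k ≥ c N ^ (1 / 2 ^ t)`.
4. If each edge is determined by `k` bits with de Morgan formulas of size `s`, then `k √s ≥ c N`.
5. If each edge of the list is determined by `k` bits which are computed by a circuit of AND and OR gates
   (or any other monotone gates) with `t` NOT gates, then `(k + 1) 2 ^ t ≥ c N + 1`.

For lists of polynomial length an edge is described by `O(log N)` bits (for a fixed alphabet), so
in 2 to 4 some of these bits are not functions of fewer than `c' √N / log N` unate bits, and not
polynomial threshold functions of degree less than `log log N - 2 log log log N`.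

Idea of the proof. The lists of two neighbouring inputs differ in at least `c M` of their `M` entries,
since a labelling for the yes instance satisfies at least `(1 - γ) M` constraints of its list and at most
`δ M` of the other one. So the sum of the average sensitivities of the entries is at least `c N M`. The
average sensitivity of a unate function is at most `√N` and that of a formula of size `s` at most `√s`
(Khrapchenko); for polynomial threshold functions the bound `2 N ^ (1 - 1 / 2 ^ t)` of Diakonikolas,
Raghavendra, Servedio and Tan is proved here by their recursion.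
-/

namespace Pool.Agent.Results.MP_62e2f2_lc.ThresholdReductions

open Finset
open scoped Classical

/-- An edge of a d-to-1 Label Cover instance with left vertices `V`, left labels `Fin R`, right vertices
`W` and right labels `Fin (d * R)`: it joins `left` and `right`, and its constraint is `map`, whose fibres
have at most `d` elements. -/
structure Edge (V W : Type) (d R : ℕ) where
  left : V
  right : W
  map : Fin (d * R) → Fin R
  fibre : ∀ b, (univ.filter fun a => map a = b).card ≤ d

/-- the labelling `A`, `B` satisfies the constraint of the edge `e` -/
def Satisfies {V W : Type} {d R : ℕ} (A : V → Fin R) (B : W → Fin (d * R)) (e : Edge V W d R) : Prop :=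
  e.map (B e.right) = A e.left

/-- The instances `E x`, `x ∈ {0,1}^N`, each given by a list of `M` edges, are a reduction from parity:
the value is at least `1 - γ` if `x` has an even number of ones, and at most `δ` otherwise. -/
structure FromParity {V W : Type} {d R N M : ℕ} (E : (Fin N → Bool) → Fin M → Edge V W d R) (γ δ : ℝ) :
    Prop where
  even : ∀ x, Even (univ.filter fun i => x i = true).card →
    ∃ A B, (1 - γ) * M ≤ (univ.filter fun j => Satisfies A B (E x j)).card
  odd : ∀ x, Odd (univ.filter fun i => x i = true).card →
    ∀ A B, ((univ.filter fun j => Satisfies A B (E x j)).card : ℝ) ≤ δ * M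

/-- the function `e` is determined by the bits `g 1, …, g k` -/
def DeterminedBy {N k : ℕ} {β : Type} (e : (Fin N → Bool) → β) (g : Fin k → (Fin N → Bool) → Bool) : Prop :=
  ∀ x y, (∀ l, g l x = g l y) → e x = e y

/-- The average, over all inputs, of the number of variables whose flip changes the value of `e`. -/
noncomputable def averageSensitivity {N : ℕ} {β : Type} (e : (Fin N → Bool) → β) : ℝ :=
  (∑ x, ((univ.filter fun i => e (Function.update x i (!(x i))) ≠ e x).card : ℝ)) / 2 ^ N

/-- in every variable nondecreasing or nonincreasing -/
def Unate {N : ℕ} (g : (Fin N → Bool) → Bool) : Prop :=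
  ∀ i, (∀ x, g (Function.update x i false) = true → g (Function.update x i true) = true) ∨
    (∀ x, g (Function.update x i true) = true → g (Function.update x i false) = true)

/-- `g x` is true iff a real polynomial of degree at most `t` (multilinear, with the coefficients
`c S`) is nonnegative at `x`. -/
def PolynomialThreshold {N : ℕ} (t : ℕ) (g : (Fin N → Bool) → Bool) : Prop :=
  ∃ c : Finset (Fin N) → ℝ, (∀ S, t < S.card → c S = 0) ∧
    ∀ x, g x = true ↔ 0 ≤ ∑ S, if (∀ i ∈ S, x i = true) then c S else 0

/-- `g` has a de Morgan formula (AND, OR, literals) with at most `s` leaves. -/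
def FormulaSizeLe {N : ℕ} (s : ℕ) (g : (Fin N → Bool) → Bool) : Prop :=
  ∃ φ : Pool.Agent.V11201.PT.Fm N, φ.size ≤ s ∧ ∀ x, φ.eval x = g x

/-- The bits `g 1, …, g k` are computed by a circuit with `t` NOT gates: the input of the `i`-th NOT
gate is a monotone function `m i` of the variables and of the values `neg j`, `j < i`, of the preceding
NOT gates, and the bits are monotone functions `o l` of the variables and of the values of all NOT
gates. (`m i` and `o l` are what the AND and OR gates, or any other monotone gates, compute; their
number is not bounded.) -/
def FewNegations {N : ℕ} (t k : ℕ) (g : Fin k → (Fin N → Bool) → Bool) : Prop :=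
  ∃ (neg : Fin t → (Fin N → Bool) → Bool) (m : Fin t → (Fin N → Bool) → (Fin t → Bool) → Bool)
    (o : Fin k → (Fin N → Bool) → (Fin t → Bool) → Bool),
    (∀ i x y u v, x ≤ y → u ≤ v → m i x u ≤ m i y v) ∧
    (∀ l x y u v, x ≤ y → u ≤ v → o l x u ≤ o l y v) ∧
    (∀ i x, neg i x = !(m i x fun j => if j < i then neg j x else false)) ∧
    ∀ l x, g l x = o l x fun j => neg j x

/-- Let `x ↦ E x` be a reduction from the parity of `N` bits to d-to-1 Label Cover whose output is a list of `M`
edges, with value at least `1 - γ` for even and at most `δ` for odd inputs, and `c = 1 - γ - δ`.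

1. Some edge of the list has average sensitivity at least `c N`.
2. If every edge of the list is determined by `k` unate bits, then `c √N ≤ k`.
3. If every edge is determined by `k` polynomial threshold functions of degree `t`, then
`c N ^ (1 / 2 ^ t) ≤ 2 k`.
4. If every edge is determined by `k` bits with formulas of size `s`, then `c N ≤ k √s`.
5. If every edge is determined by `k` bits computed by a circuit with `t` NOT gates, then
`c N + 1 ≤ (k + 1) 2 ^ t`. -/
theorem result : ∀ (d R : ℕ) (V W : Type) (N M : ℕ) (E : (Fin N → Bool) → Fin M → Edge V W d R) (γ δ : ℝ),
    1 ≤ N → 1 ≤ M → FromParity E γ δ →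
    (∃ j, (1 - γ - δ) * N ≤ averageSensitivity fun x => E x j) ∧
    ∀ (k : ℕ) (g : Fin M → Fin k → (Fin N → Bool) → Bool), (∀ j, DeterminedBy (fun x => E x j) (g j)) →
      ((∀ j l, Unate (g j l)) → (1 - γ - δ) * Real.sqrt N ≤ k) ∧
      (∀ t : ℕ, (∀ j l, PolynomialThreshold t (g j l)) → (1 - γ - δ) * (N : ℝ) ^ (1 / 2 ^ t : ℝ) ≤ 2 * k) ∧
      (∀ s : ℕ, (∀ j l, FormulaSizeLe s (g j l)) → (1 - γ - δ) * N ≤ k * Real.sqrt s) ∧
      ∀ t : ℕ, (∀ j, FewNegations t k (g j)) → (1 - γ - δ) * N + 1 ≤ (k + 1) * 2 ^ t := by
  intro d R V W N M E γ δ hN hM hE
  have hyes : ∀ x, Even (univ.filter fun i => x i = true).card →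
      ∃ a : (V → Fin R) × (W → Fin (d * R)), (1 - γ) * M ≤ (univ.filter fun j => Satisfies a.1 a.2 (E x j)).card := by
    intro x hx
    obtain ⟨A, B, h⟩ := hE.even x hx
    exact ⟨(A, B), h⟩
  have hno : ∀ x, Odd (univ.filter fun i => x i = true).card →
      ∀ a : (V → Fin R) × (W → Fin (d * R)), ((univ.filter fun j => Satisfies a.1 a.2 (E x j)).card : ℝ) ≤ δ * M :=
    fun x hx a => hE.odd x hx a.1 a.2
  refine ⟨?_, fun k g hg => ⟨fun h => ?_, fun t h => ?_, fun s h => ?_, fun t h => ?_⟩⟩
  · obtain ⟨j, hj⟩ := Pool.Agent.V11201.PT.exists_entry (S := fun (a : (V → Fin R) × (W → Fin (d * R))) e => Satisfies a.1 a.2 e)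
      hM hyes hno
    refine ⟨j, ?_⟩
    unfold averageSensitivity
    rw [le_div_iff₀ (by positivity)]
    refine hj.trans (le_of_eq ?_)
    unfold Pool.Agent.V11201.PT.TS
    push_cast
    rfl
  · exact Pool.Agent.V11201.PT.list_unate (S := fun (a : (V → Fin R) × (W → Fin (d * R))) e => Satisfies a.1 a.2 e)
      hN hM hyes hno hg h
  · exact Pool.Agent.V11201.PT.list_ptf (S := fun (a : (V → Fin R) × (W → Fin (d * R))) e => Satisfies a.1 a.2 e)
      hN hM hyes hno t hg h
  · choose F hF hF' using h
    refine Pool.Agent.V11201.PT.list_fm (S := fun (a : (V → Fin R) × (W → Fin (d * R))) e => Satisfies a.1 a.2 e)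
      hM hyes hno s (F := F) (fun j x y hxy => hg j x y fun l => ?_) hF
    rw [← hF', ← hF']
    exact hxy l
  · exact Pool.Agent.V11201.PT.list_neg (S := fun (a : (V → Fin R) × (W → Fin (d * R))) e => Satisfies a.1 a.2 e)
      hM hyes hno hg h

end Pool.Agent.Results.MP_62e2f2_lc.ThresholdReductions
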